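import Pool.Agent.Y294.TB.Stm

/-!
# Noncircular algebraic boundary points are preserved by the symmetries of the table
-/

set_option autoImplicit false

open Set Filter Topology MvPolynomial Pool.Agent.TH746.AL

namespace Pool.Agent.Y394.TB.Inv

/-- the linear forms given by a matrix -/
noncomputable def Lf {d : ℕ} (M : Fin d → Fin d → ℝ) (j : Fin d) : MvPolynomial (Fin d) ℝ :=
  ∑ i, C (M j i) * X i

theorem Lf_hom {d : ℕ} (M : Fin d → Fin d → ℝ) (j : Fin d) : (Lf M j).IsHomogeneous 1 := by
  unfold Lf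
  apply IsHomogeneous.sum
  intro i _
  exact (isHomogeneous_X ℝ i).C_mul _

theorem eval_Lf {d : ℕ} (M : Fin d → Fin d → ℝ) (j : Fin d) (x : Fin d → ℝ) :
    eval x (Lf M j) = ∑ i, M j i * x i := by
  simp [Lf]

/-- substitution of affine forms -/
noncomputable def ph {d : ℕ} (M : Fin d → Fin d → ℝ) (c : Fin d → ℝ) :
    MvPolynomial (Fin d) ℝ →ₐ[ℝ] MvPolynomial (Fin d) ℝ :=
  bind₁ fun j => Lf M j + C (c j)

/-- substitution of linear forms -/
noncomputable def ps {d : ℕ} (M : Fin d → Fin d → ℝ) :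
    MvPolynomial (Fin d) ℝ →ₐ[ℝ] MvPolynomial (Fin d) ℝ :=
  bind₁ fun j => Lf M j

theorem eval_ph {d : ℕ} (M : Fin d → Fin d → ℝ) (c : Fin d → ℝ) (x : Fin d → ℝ)
    (p : MvPolynomial (Fin d) ℝ) :
    eval x (ph M c p) = eval (fun j => ∑ i, M j i * x i + c j) p := by
  have h1 : ((eval x).comp (ph M c : MvPolynomial (Fin d) ℝ →+* MvPolynomial (Fin d) ℝ)) =
      eval (fun j => ∑ i, M j i * x i + c j) := by
    apply MvPolynomial.ringHom_ext
    · intro r; simp [ph]
    · intro i; simp [ph, eval_Lf]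
  exact congrArg (fun f => f p) h1

theorem eval_ps {d : ℕ} (M : Fin d → Fin d → ℝ) (x : Fin d → ℝ)
    (p : MvPolynomial (Fin d) ℝ) :
    eval x (ps M p) = eval (fun j => ∑ i, M j i * x i) p := by
  have h1 : ((eval x).comp (ps M : MvPolynomial (Fin d) ℝ →+* MvPolynomial (Fin d) ℝ)) =
      eval (fun j => ∑ i, M j i * x i) := by
    apply MvPolynomial.ringHom_ext
    · intro r; simp [ps]
    · intro i; simp [ps, eval_Lf]
  exact congrArg (fun f => f p) h1

theorem ps_hom {d : ℕ} (M : Fin d → Fin d → ℝ) (p : MvPolynomial (Fin d) ℝ) (k : ℕ)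
    (hp : p.IsHomogeneous k) : (ps M p).IsHomogeneous k := by
  have := hp.aeval (fun j => Lf M j) (fun j => Lf_hom M j)
  rw [one_mul] at this
  exact this

theorem mono {d : ℕ} (M : Fin d → Fin d → ℝ) (c : Fin d → ℝ) (s : Fin d →₀ ℕ) (a : ℝ) :
    ∃ k, (monomial s a).IsHomogeneous k ∧
      (ph M c (monomial s a) = ps M (monomial s a) ∨
        (ph M c (monomial s a) - ps M (monomial s a)).totalDegree < k) := by
  refine MvPolynomial.induction_on_monomial (motive := fun p => ∃ k, p.IsHomogeneous k ∧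
      (ph M c p = ps M p ∨ (ph M c p - ps M p).totalDegree < k)) ?_ ?_ s a
  · intro a
    refine ⟨0, isHomogeneous_C _ _, Or.inl ?_⟩
    simp [ph, ps]
  · intro p j ih
    obtain ⟨k, hk, h⟩ := ih
    refine ⟨k + 1, hk.mul (isHomogeneous_X ℝ j), Or.inr ?_⟩
    have hL : (Lf M j).totalDegree ≤ 1 := (Lf_hom M j).totalDegree_le
    have hpsd : (ps M p).totalDegree ≤ k := (ps_hom M p k hk).totalDegree_le
    have hphd : (ph M c p).totalDegree ≤ k := by
      rcases h with h | h
      · rw [h]; exact hpsd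
      · have : ph M c p = (ph M c p - ps M p) + ps M p := by ring
        rw [this]
        refine le_trans (totalDegree_add _ _) (max_le (le_of_lt h) hpsd)
    have e : ph M c (p * X j) - ps M (p * X j) =
        (ph M c p - ps M p) * Lf M j + C (c j) * ph M c p := by
      have e1 : ph M c (X j) = Lf M j + C (c j) := by simp [ph]
      have e2 : ps M (X j) = Lf M j := by simp [ps]
      rw [map_mul, map_mul, e1, e2]
      ring
    rw [e]
    refine lt_of_le_of_lt (totalDegree_add _ _) (max_lt ?_ ?_)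
    · rcases h with h | h
      · rw [h, sub_self, zero_mul, totalDegree_zero]
        omega
      · exact lt_of_le_of_lt (totalDegree_mul _ _) (by omega)
    · refine lt_of_le_of_lt (totalDegree_mul _ _) ?_
      rw [totalDegree_C]
      omega

theorem lead_eq {d : ℕ} (M : Fin d → Fin d → ℝ) (c : Fin d → ℝ) (p : MvPolynomial (Fin d) ℝ)
    (n : ℕ) (hn : p.totalDegree ≤ n) :
    homogeneousComponent n (ph M c p) = ps M (homogeneousComponent n p) ∧
      (ph M c p).totalDegree ≤ n := by
  have key : ∀ v ∈ p.support,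
      homogeneousComponent n (ph M c (monomial v (coeff v p))) =
        ps M (homogeneousComponent n (monomial v (coeff v p))) ∧
      (ph M c (monomial v (coeff v p))).totalDegree ≤ n := by
    intro v hv
    obtain ⟨k, hk, h⟩ := mono M c v (coeff v p)
    have hne : monomial v (coeff v p) ≠ 0 := by
      rw [Ne, monomial_eq_zero]
      exact mem_support_iff.mp hv
    have hkn : k ≤ n := by
      have h1 := hk.totalDegree hne
      rw [← h1, totalDegree_monomial _ (mem_support_iff.mp hv)]
      exact le_trans (le_totalDegree hv) hn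
    have hps := ps_hom M _ k hk
    have hdec : ph M c (monomial v (coeff v p)) =
        (ph M c (monomial v (coeff v p)) - ps M (monomial v (coeff v p))) +
          ps M (monomial v (coeff v p)) := by ring
    have h0 : homogeneousComponent n
        (ph M c (monomial v (coeff v p)) - ps M (monomial v (coeff v p))) = 0 := by
      rcases h with h | h
      · rw [h, sub_self, map_zero]
      · exact homogeneousComponent_eq_zero _ _ (lt_of_lt_of_le h hkn)
    constructor
    · rw [hdec, map_add, h0, zero_add,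
        homogeneousComponent_of_mem ((mem_homogeneousSubmodule _ _).mpr hps),
        homogeneousComponent_of_mem ((mem_homogeneousSubmodule _ _).mpr hk)]
      split_ifs <;> simp
    · rw [hdec]
      refine le_trans (totalDegree_add _ _) (max_le ?_ (hps.totalDegree_le.trans hkn))
      rcases h with h | h
      · rw [h, sub_self, totalDegree_zero]
        omega
      · omega
  have hp : p = ∑ v ∈ p.support, monomial v (coeff v p) := p.as_sum
  constructor
  · conv_lhs => rw [hp]
    conv_rhs => rw [hp]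
    rw [map_sum, map_sum, map_sum, map_sum]
    exact Finset.sum_congr rfl fun v hv => (key v hv).1
  · rw [hp, map_sum]
    refine le_trans (totalDegree_finsetSum _ _) ?_
    exact Finset.sup_le fun v hv => (key v hv).2

/-- matrix of a linear isometry -/
noncomputable def Mt {d : ℕ} (H : EuclideanSpace ℝ (Fin d) ≃ₗᵢ[ℝ] EuclideanSpace ℝ (Fin d))
    (j i : Fin d) : ℝ := (H (EuclideanSpace.single i 1)).ofLp j

theorem Mt_sum {d : ℕ} (H : EuclideanSpace ℝ (Fin d) ≃ₗᵢ[ℝ] EuclideanSpace ℝ (Fin d))
    (x : EuclideanSpace ℝ (Fin d)) (j : Fin d) :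
    ∑ i, Mt H j i * x.ofLp i = (H x).ofLp j := by
  have h1 : x = ∑ i, x.ofLp i • EuclideanSpace.single i (1 : ℝ) := by
    ext l
    simp [Pi.single_apply]
  conv_rhs => rw [h1]
  rw [map_sum]
  simp only [map_smul]
  unfold Mt
  simp [mul_comm]

theorem div_iff {d : ℕ} (G : EuclideanSpace ℝ (Fin d) ≃ₗᵢ[ℝ] EuclideanSpace ℝ (Fin d))
    (F : MvPolynomial (Fin d) ℝ)
    (h : (∑ i, X i ^ 2 : MvPolynomial (Fin d) ℝ) ∣ ps (Mt G.symm) F) :
    (∑ i, X i ^ 2 : MvPolynomial (Fin d) ℝ) ∣ F := by
  have h1 := map_dvd (ps (Mt G)) h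
  have h2 : ps (Mt G) (∑ i, X i ^ 2 : MvPolynomial (Fin d) ℝ) = ∑ i, X i ^ 2 := by
    apply MvPolynomial.funext
    intro x
    rw [eval_ps]
    have h3 := G.norm_map (WithLp.toLp 2 x)
    have h4 : ‖G (WithLp.toLp 2 x)‖ ^ 2 = ‖WithLp.toLp 2 x‖ ^ 2 := by rw [h3]
    rw [EuclideanSpace.norm_sq_eq, EuclideanSpace.norm_sq_eq] at h4
    simp only [map_sum, map_pow, eval_X]
    simp only [Real.norm_eq_abs, sq_abs] at h4
    rw [← h4]
    apply Finset.sum_congr rfl
    intro j _
    rw [← Mt_sum]
  have h3 : ps (Mt G) (ps (Mt G.symm) F) = F := by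
    apply MvPolynomial.funext
    intro x
    rw [eval_ps, eval_ps]
    congr 1
    congr 1
    funext j
    have h5 : ∀ j, ∑ i, Mt G j i * x i = (G (WithLp.toLp 2 x)).ofLp j := fun j =>
      Mt_sum G (WithLp.toLp 2 x) j
    have h6 := Mt_sum G.symm (G (WithLp.toLp 2 x)) j
    rw [G.symm_apply_apply] at h6
    simp only [h5]
    exact h6
  rwa [h2, h3] at h1

theorem inv_aux (d : ℕ) (Ω : Set (EuclideanSpace ℝ (Fin d)))
    (g : EuclideanSpace ℝ (Fin d) ≃ᵃⁱ[ℝ] EuclideanSpace ℝ (Fin d)) (q : EuclideanSpace ℝ (Fin d))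
    (hg : g ⁻¹' Ω = Ω) (hq : AlgAt Ω q) : AlgAt Ω (g q) := by
  obtain ⟨P, hP, hev⟩ := hq
  set G := g.linearIsometryEquiv with hG
  set c : Fin d → ℝ := (g.symm 0).ofLp with hc
  refine ⟨ph (Mt G.symm) c P, ?_, ?_⟩
  · obtain ⟨h1, h2⟩ := lead_eq (Mt G.symm) c P P.totalDegree le_rfl
    have h3 : ¬ (∑ i, X i ^ 2 : MvPolynomial (Fin d) ℝ) ∣
        homogeneousComponent P.totalDegree (ph (Mt G.symm) c P) := by
      rw [h1]
      exact fun h => hP (div_iff G _ h)
    have h4 : (ph (Mt G.symm) c P).totalDegree = P.totalDegree := by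
      apply le_antisymm h2
      by_contra hlt
      rw [not_le] at hlt
      apply h3
      rw [homogeneousComponent_eq_zero _ _ hlt]
      exact dvd_zero _
    rw [h4]
    exact h3
  · have ht : Tendsto g.symm (𝓝 (g q)) (𝓝 q) := by
      have := g.symm.continuous.tendsto (g q)
      rwa [g.symm_apply_apply] at this
    filter_upwards [ht.eventually hev] with y hy hyf
    have hfr : g.symm y ∈ frontier Ω := by
      have h1 : g.toHomeomorph ⁻¹' (frontier Ω) = frontier (g.toHomeomorph ⁻¹' Ω) :=
        g.toHomeomorph.preimage_frontier Ω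
      have h2 : g.toHomeomorph ⁻¹' Ω = Ω := hg
      rw [h2] at h1
      rw [← h1]
      show g (g.symm y) ∈ frontier Ω
      rwa [g.apply_symm_apply]
    have h5 := hy hfr
    rw [eval_ph]
    have h6 : (fun j => ∑ i, Mt G.symm j i * y.ofLp i + c j) = (g.symm y).ofLp := by
      funext j
      rw [Mt_sum]
      have h7 : g.symm y = G.symm y + g.symm 0 := by
        have h8 := g.symm.map_vadd 0 y
        simp only [vadd_eq_add, add_zero] at h8
        rw [h8]
        rfl
      rw [h7]
      simp [hc]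
    rw [h6]
    exact h5

theorem inv : Pool.Agent.Y294.TB.S_INV := fun d Ω g q => inv_aux d Ω g q

end Pool.Agent.Y394.TB.Inv
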